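import Pool.Agent.H7.OPP.Stmts

/-!
# OPP, module NUMA: the number facts
-/

set_option autoImplicit false

namespace Pool.OPP

theorem NUMA_lt (B : ℕ) (n : ℕ) (d : ℕ → ℕ) (hd : ∀ w < n, d w < B) :
    ∑ w ∈ Finset.range n, B ^ w * d w < B ^ n := by
  induction n with
  | zero => simp
  | succ n ih =>
    rw [Finset.sum_range_succ, pow_succ]
    have h1 := ih (fun w hw => hd w (by omega))
    have h2 : d n + 1 ≤ B := hd n (by omega)
    have h3 : B ^ n * (d n + 1) ≤ B ^ n * B := Nat.mul_le_mul_left _ h2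
    have h4 : B ^ n * (d n + 1) = B ^ n * d n + B ^ n := by ring
    omega

theorem NUMA_digits (B : ℕ) (n : ℕ) (d e : ℕ → ℕ) (hd : ∀ w < n, d w < B)
    (he : ∀ w < n, e w < B)
    (h : ∑ w ∈ Finset.range n, B ^ w * d w = ∑ w ∈ Finset.range n, B ^ w * e w) :
    ∀ w < n, d w = e w := by
  induction n with
  | zero => intro w hw; omega
  | succ n ih =>
    have h1 := NUMA_lt B n d (fun w hw => hd w (by omega))
    have h2 := NUMA_lt B n e (fun w hw => he w (by omega))
    rw [Finset.sum_range_succ, Finset.sum_range_succ] at h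
    have h3 : d n = e n := by
      rcases lt_trichotomy (d n) (e n) with hlt | heq | hgt
      · exfalso
        have h5 : B ^ n * (d n + 1) ≤ B ^ n * e n := Nat.mul_le_mul_left _ hlt
        have h4 : B ^ n * (d n + 1) = B ^ n * d n + B ^ n := by ring
        omega
      · exact heq
      · exfalso
        have h5 : B ^ n * (e n + 1) ≤ B ^ n * d n := Nat.mul_le_mul_left _ hgt
        have h4 : B ^ n * (e n + 1) = B ^ n * e n + B ^ n := by ring
        omega
    rw [h3] at h
    have h6 := ih (fun w hw => hd w (by omega)) (fun w hw => he w (by omega)) (by omega)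
    intro w hw
    rcases Nat.lt_succ_iff_lt_or_eq.1 hw with h7 | h7
    · exact h6 w h7
    · rw [h7]; exact h3

theorem NUMA_main (h M : ℕ) (hM : (h + 1) ^ h ≤ M) (D : ℕ → ℕ)
    (hs : ∑ w ∈ Finset.range h, (M + (h + 1) ^ w) * D w
      = ∑ w ∈ Finset.range h, (M + (h + 1) ^ w)) : ∀ w < h, D w = 1 := by
  intro w0 hw0
  have h1 : 1 ≤ h := by omega
  have hpos : 0 < M := lt_of_lt_of_le (by positivity) hM
  have e1 : ∑ w ∈ Finset.range h, (M + (h + 1) ^ w) * D w
      = M * ∑ w ∈ Finset.range h, D w + ∑ w ∈ Finset.range h, (h + 1) ^ w * D w := by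
    rw [Finset.mul_sum, ← Finset.sum_add_distrib]
    exact Finset.sum_congr rfl fun w _ => by ring
  have e2 : ∑ w ∈ Finset.range h, (M + (h + 1) ^ w)
      = M * h + ∑ w ∈ Finset.range h, (h + 1) ^ w * 1 := by
    rw [Finset.sum_add_distrib, Finset.sum_const, Finset.card_range, smul_eq_mul]
    simp only [mul_one]
    ring
  rw [e1, e2] at hs
  have l1 : ∑ w ∈ Finset.range h, (h + 1) ^ w * 1 < (h + 1) ^ h :=
    NUMA_lt (h + 1) h (fun _ => 1) (fun w _ => by omega)
  -- the sum of the digits is at most `h`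
  have hD : ∑ w ∈ Finset.range h, D w ≤ h := by
    by_contra hc
    push Not at hc
    have h5 : M * (h + 1) ≤ M * ∑ w ∈ Finset.range h, D w := Nat.mul_le_mul_left _ hc
    have h4 : M * (h + 1) = M * h + M := by ring
    omega
  have hd : ∀ w < h, D w < h + 1 := by
    intro w hw
    have := Finset.single_le_sum (f := D) (fun i _ => Nat.zero_le _) (Finset.mem_range.2 hw)
    omega
  have l2 := NUMA_lt (h + 1) h D hd
  have hD2 : ∑ w ∈ Finset.range h, D w = h := by
    by_contra hc
    have hlt : ∑ w ∈ Finset.range h, D w + 1 ≤ h := by omega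
    have h5 : M * (∑ w ∈ Finset.range h, D w + 1) ≤ M * h := Nat.mul_le_mul_left _ hlt
    have h4 : M * (∑ w ∈ Finset.range h, D w + 1) = M * ∑ w ∈ Finset.range h, D w + M := by ring
    omega
  rw [hD2] at hs
  exact NUMA_digits (h + 1) h D (fun _ => 1) hd (fun w _ => by omega) (by omega) w0 hw0

theorem NUMA_single (h M : ℕ) (hM : (h + 1) ^ h ≤ M) (w : Fin h) (T : Finset (Fin h))
    (hs : M + (h + 1) ^ (w : ℕ) = ∑ v ∈ T, (M + (h + 1) ^ (v : ℕ))) : T = {w} := by
  classical
  have h1 : 1 ≤ h := by have := w.2; omega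
  have hpos : 0 < M := lt_of_lt_of_le (by positivity) hM
  have hw : (h + 1) ^ (w : ℕ) < M := by
    refine lt_of_lt_of_le ?_ hM
    exact Nat.pow_lt_pow_right (by omega) w.2
  rw [Finset.sum_add_distrib, Finset.sum_const, smul_eq_mul] at hs
  have hc : T.card = 1 := by
    rcases Nat.lt_trichotomy T.card 1 with h2 | h2 | h2
    · have h3 : T = ∅ := Finset.card_eq_zero.1 (by omega)
      rw [h3] at hs
      simp at hs
    · exact h2
    · exfalso
      have h5 : 2 * M ≤ T.card * M := Nat.mul_le_mul_right _ h2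
      have h6 : 0 ≤ ∑ v ∈ T, (h + 1) ^ (v : ℕ) := Nat.zero_le _
      omega
  obtain ⟨v, hv⟩ := Finset.card_eq_one.1 hc
  rw [hv, Finset.sum_singleton, Finset.card_singleton, one_mul] at hs
  have h7 : (h + 1) ^ (w : ℕ) = (h + 1) ^ (v : ℕ) := by omega
  have h8 : (w : ℕ) = (v : ℕ) := Nat.pow_right_injective (by omega) h7
  rw [hv, Fin.ext h8]

theorem sNum : SNum := by
  have hM : (hh + 1) ^ hh ≤ (hh + 1) ^ (hh + 1) := Nat.pow_le_pow_right (by omega) (by omega)
  have hK : ∀ w : Fin hh, nw w ≤ ∑ w ∈ Finset.range hh, nw w := fun w =>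
    Finset.single_le_sum (f := fun i => nw i) (fun i _ => Nat.zero_le _) (Finset.mem_range.2 w.2)
  refine ⟨?_, ?_, ?_, ?_⟩
  · intro d hd
    rw [Fin.sum_univ_succ, Fin.sum_univ_succ] at hd
    simp only [nn_zero, nn_succ] at hd
    set D : ℕ → ℕ := fun w => if h : w < hh then d ⟨w + 1, by omega⟩ else 0 with hDdef
    have e1 : ∑ w : Fin hh, nw w * d w.succ = ∑ w ∈ Finset.range hh, nw w * D w := by
      rw [Finset.sum_range]
      refine Finset.sum_congr rfl fun w _ => ?_
      have : D w = d w.succ := by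
        rw [hDdef]; simp only [w.2, dif_pos]; rfl
      rw [this]
    have e2 : ∑ w : Fin hh, nw w = ∑ w ∈ Finset.range hh, nw w := by
      rw [Finset.sum_range]
    rw [e1, e2] at hd
    have f1 : ∑ w ∈ Finset.range hh, nw w * D w
        = 6 * ∑ w ∈ Finset.range hh, ((hh + 1) ^ (hh + 1) + (hh + 1) ^ w) * D w := by
      rw [Finset.mul_sum]
      refine Finset.sum_congr rfl fun w _ => ?_
      unfold nw; ring
    have f2 : ∑ w ∈ Finset.range hh, nw w
        = 6 * ∑ w ∈ Finset.range hh, ((hh + 1) ^ (hh + 1) + (hh + 1) ^ w) := by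
      rw [Finset.mul_sum]
      refine Finset.sum_congr rfl fun w _ => ?_
      unfold nw; ring
    set K := ∑ w ∈ Finset.range hh, nw w with hKdef
    have hkap : kap = 6 * (K + 1) + 3 := by rw [hKdef]; rfl
    have hd0 : d 0 = 1 := by
      have hlt : d 0 < 2 := by
        by_contra hc
        push Not at hc
        have h5 : kap * 2 ≤ kap * d 0 := Nat.mul_le_mul_left _ hc
        omega
      have hne : d 0 ≠ 0 := by
        intro h0
        rw [h0, mul_zero, zero_add, f1] at hd
        omega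
      omega
    rw [hd0, mul_one] at hd
    have hs : ∑ w ∈ Finset.range hh, nw w * D w = K := by omega
    rw [f1, f2] at hs
    have hs' := Nat.eq_of_mul_eq_mul_left (by norm_num) hs
    have hfin := NUMA_main hh _ hM D hs'
    intro v
    refine Fin.cases hd0 (fun w => ?_) v
    have h9 := hfin w w.2
    rw [hDdef] at h9
    simp only [w.2, dif_pos] at h9
    exact h9
  · intro w T hT
    simp only [nn_succ] at hT
    unfold nw at hT
    rw [← Finset.mul_sum] at hT
    exact NUMA_single hh _ hM w T (Nat.eq_of_mul_eq_mul_left (by norm_num) hT)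
  · intro w
    rw [nn_succ, nn_zero]
    have := hK w
    unfold kap
    omega
  · intro v
    refine Fin.cases ?_ (fun w => ?_) v
    · rw [nn_zero]; unfold kap; exact ⟨2 * ((∑ w ∈ Finset.range hh, nw w) + 1) + 1, by ring⟩
    · rw [nn_succ]; unfold nw
      exact ⟨2 * ((hh + 1) ^ (hh + 1) + (hh + 1) ^ (w : ℕ)), by ring⟩

end Pool.OPP
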